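import Mathlib
import Pool.Agent.H.MP_7489b4_an.A

set_option autoImplicit false

namespace Pool.Agent.Results.MP_7489b4_an.No

open Set Filter Topology Real

/-- completed graph -/
def gr (f : ℝ → ℝ) : Set (ℝ × ℝ) :=
  {p | min (f p.1) (liminf f (𝓝[≠] p.1)) ≤ p.2 ∧ p.2 ≤ max (f p.1) (limsup f (𝓝[≠] p.1))}

/-- Hausdorff distance of completed graphs -/
noncomputable def r (α : ℝ) (f g : ℝ → ℝ) : ENNReal :=
  Metric.hausdorffEDist ((fun p : ℝ × ℝ => (p.1 / α, p.2)) '' gr f) ((fun p : ℝ × ℝ => (p.1 / α, p.2)) '' gr g)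

/-- Weierstrass operator -/
noncomputable def W (n : ℕ) (f : ℝ → ℝ) (x : ℝ) : ℝ := √(n / π) * ∫ s, f (x + s) * exp (-n * s ^ 2)

/-- Poisson operator -/
noncomputable def P (ρ : ℝ) (f : ℝ → ℝ) (x : ℝ) : ℝ :=
  1 / (2 * π) * ∫ s in -π..π, f (x + s) * ((1 - ρ ^ 2) / (1 + ρ ^ 2 - 2 * ρ * cos s))

/-- de la Vallee Poussin operator -/
noncomputable def V (n : ℕ) (f : ℝ → ℝ) (x : ℝ) : ℝ := (n.factorial : ℝ) ^ 2 / (2 * n).factorial *
  (1 / (2 * π) * ∫ s in -π..π, f (x + s) * (2 * cos (s / 2)) ^ (2 * n))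

theorem result (α : ℝ) (hα : 0 < α) (f : ℝ → ℝ) (mf : AEMeasurable f) (bf : ∃ B, ∀ t, |f t| ≤ B)
    (h : limsup (fun n : ℕ => ENNReal.ofReal √n * r α f (W n f)) atTop < ⊤ ∨
      limsup (fun ρ : ℝ => r α f (P ρ f) / ENNReal.ofReal (1 - ρ)) (𝓝[<] 1) < ⊤ ∨
      limsup (fun n : ℕ => ENNReal.ofReal √n * r α f (V n f)) atTop < ⊤) : Continuous f :=
  open Pool.Agent.H.MP_7489b4_an in
  bf.elim fun _ b => h.elim (cW hα mf b) (·.elim (cP hα mf b) (cV hα mf b))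

end Pool.Agent.Results.MP_7489b4_an.No
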